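import Pool.Agent.Run7.h527.TP.Ex
import Pool.Agent.Results.MP_9d7cd1_nt.MultiplicativeValues

/-!
# Hall's conjecture on Mordell curves near aliquot sums, cototients and arithmetic derivatives

Let `g(m)` be the sum of the proper divisors of `m`, the cototient `m - φ(m)`, the arithmetic derivative `m'` (with `p' = 1`
for primes and Leibniz' rule), or any positive combination `α m + β f(m)` with `f = σ`, `φ` or the arithmetic derivative. Let
`G` have steps bounded below by a positive constant and growth at most `v^e`, `κ ≥ 0` and `5 e / 6 + κ < τ ≤ 1`. For all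
`m ≤ N` which have two prime factors `p ≠ q`, not dividing `m / (p q) ≥ 2`, with `p q ≥ m^τ`, but at most `N^(1 - η)` of them,
EVERY integral point `(x, y)` of every curve `y ^ 2 = x ^ 3 + D`, `D ≠ 0`, with `||x| - G (g m)| ≤ g(m)^κ` satisfies
`|x| < 32 |D|`.

Proof. Write `m = k p q`. Then `g(m) = a p q + b (p + q) + c` with integers `a ≠ 0`, `b`, `c` which depend on `k` only, and
`(a p + b) (a q + b) = a g(m) + b² - a c`. So for given `k ≤ N^(1 - τ)` every value is taken for at most `N^ε` pairs `p`, `q`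
(the tool `Run7/h527/TP`), and the exceptional `|x|` are few (`V60.Hall.count`, starting files).
-/

set_option autoImplicit false

namespace Pool.Agent.Results.MP_9d7cd1_nt.AliquotSums

open Finset
open Pool.Agent.N733.TG (Expanding expanding_pow)
open Pool.Agent.Results.MP_9d7cd1_nt.MultiplicativeValues (mem_E)
open Run7.h527.TP (Bil Two windows aliquot cototient deriv sig comb)

/-- **Hall's conjecture near the values of functions which are bilinear in two large primes.** Let `g` be of the class `Bil`,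
let `G` have steps `≥ a > 0` and growth at most `v^e`. Let `κ ≥ 0` and `5 e / 6 + κ < τ ≤ 1`. There is `η > 0` such that for
all large `N`, for all `m ≤ N` with `Two τ m` but at most `N^(1 - η)`, EVERY integral point `(x, y)` of every curve
`y ^ 2 = x ^ 3 + D`, `D ≠ 0`, with `||x| - G (g m)| ≤ g(m)^κ` satisfies `|x| < 32 |D|`. The sum of the proper divisors, the
cototient, the arithmetic derivative and their positive combinations with the identity are examples of such `g`. -/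
theorem result :
    (∀ g : ℕ → ℕ, Bil g → ∀ (G : ℕ → ℝ) (e : ℝ), Expanding G e → ∀ κ τ : ℝ, 0 ≤ κ → e * (5 / 6) + κ < τ → τ ≤ 1 →
      ∃ η : ℝ, 0 < η ∧ ∃ N₀ : ℕ, ∀ N : ℕ, N₀ ≤ N →
      ({m : ℕ | 1 ≤ m ∧ m ≤ N ∧ Two τ m ∧ ¬ ∀ D x y : ℤ, D ≠ 0 → y ^ 2 = x ^ 3 + D →
        |(|x| : ℝ) - G (g m)| ≤ (g m : ℝ) ^ κ → |x| < 32 * |D|}.ncard : ℝ) ≤ (N : ℝ) ^ (1 - η)) ∧
    (Bil aliquot ∧ Bil cototient ∧ Bil deriv ∧
      (∀ α β : ℤ, (∀ m : ℕ, 2 ≤ m → 0 < α * m + β * sig m) → Bil (comb α β sig)) ∧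
      (∀ α β : ℤ, (∀ m : ℕ, 2 ≤ m → 0 < α * m + β * Nat.totient m) → Bil (comb α β Nat.totient)) ∧
      ∀ α β : ℤ, (∀ m : ℕ, 2 ≤ m → 0 < α * m + β * deriv m) → Bil (comb α β deriv)) ∧
    ∀ α e : ℝ, 0 < α → 1 ≤ e → Expanding (fun v => α * (v : ℝ) ^ e) e := by
  refine ⟨fun g hg G e hG κ τ hκ h1 hτ => ?_, Run7.h527.TP.examples, fun α d hα hd => expanding_pow hα hd⟩
  obtain ⟨η, hη, N₀, hN₀⟩ := windows Pool.Agent.V60.Hall.E (fun t : ℕ => (t : ℝ)) hg hG (s := 5 / 6) (κ := κ)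
    (by norm_num) hκ h1 hτ (fun ε hε => Pool.Agent.V60.Hall.count ε hε)
  refine ⟨η, hη, N₀, fun N hN => le_trans ?_ (hN₀ N hN)⟩
  have hfin : {m : ℕ | 1 ≤ m ∧ m ≤ N ∧ Two τ m ∧
      ∃ t ∈ Pool.Agent.V60.Hall.E, |(t : ℝ) - G (g m)| ≤ (g m : ℝ) ^ κ}.Finite :=
    (Set.finite_Icc 1 N).subset fun m hm => ⟨hm.1, hm.2.1⟩
  have hsub : {m : ℕ | 1 ≤ m ∧ m ≤ N ∧ Two τ m ∧ ¬ ∀ D x y : ℤ, D ≠ 0 → y ^ 2 = x ^ 3 + D →
      |(|x| : ℝ) - G (g m)| ≤ (g m : ℝ) ^ κ → |x| < 32 * |D|} ⊆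
      {m : ℕ | 1 ≤ m ∧ m ≤ N ∧ Two τ m ∧ ∃ t ∈ Pool.Agent.V60.Hall.E, |(t : ℝ) - G (g m)| ≤ (g m : ℝ) ^ κ} := by
    rintro m ⟨h2, h3, h3', h4⟩
    push Not at h4
    obtain ⟨D, x, y, hD, hxy, hw, hx⟩ := h4
    refine ⟨h2, h3, h3', x.natAbs, mem_E hD hxy (not_lt.2 hx), ?_⟩
    have e : ((x.natAbs : ℕ) : ℝ) = |(x : ℝ)| := by
      rw [Nat.cast_natAbs]
      push_cast
      rfl
    rw [e]
    exact hw
  exact_mod_cast Set.ncard_le_ncard hsub hfin

end Pool.Agent.Results.MP_9d7cd1_nt.AliquotSums
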