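import Pool.Agent.Run7.h95.NP.Main
import Pool.Agent.Results.MP_9d7cd1_nt.MultiplicativeValues

/-!
# Hall's conjecture for abscissas near products of linear forms

Let `0 ≤ θ < 1 / 6`, `A ≥ 0`, `h ≥ 1` and `0 ≤ σ ≤ 1`, `σ < h (1 / 6 - θ)`. For all integer vectors `x` in `[-X, X]^D` with at
most `C Q^(h (D + 2)) X^(D - σ)` exceptions, `C` depending on `D`, EVERY integral point `(u, v)` of every curve
`v ^ 2 = u ^ 3 + d`, `d ≠ 0`, with `||u| - |t|| ≤ A |t|^θ` for ANY product `t = y_1 ⋯ y_h` of `h` linear forms, `y = M x + b`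
with `M` an integral matrix of rank `h` and `b` an integral vector, the entries of `M` and `b` at most `Q`, all `y_j ≠ 0`,
satisfies `|u| < 32 |d|`, which is much more than Hall's bound `|u| ≤ C |d| ^ (2 + ε)`. Here `Q` can be a small power of `X`. We
prove a similar result for the integer vectors near `N_n α`, `N_n` a lacunary sequence (for instance the truncations of the
expansions in base `g`, `N_n = g^n`), for all real vectors `α` outside a set of dimension less than `D`, and `M`, `b` with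
entries up to a power of `N_n`.

The number of the abscissas `|u| ≤ X` with `|u| ≥ 32 |d|` is at most `C X^(5 / 6 + ε)` (starting library,
`Pool.Agent.V60.LD.HallCount`). The products of `h` integers form a set of density zero, and so the result for `h ≥ 2` does not
follow from this number alone: the divisor bound shows that few vectors `y` have a product near such an abscissa, and for each of
the possible `M`, `b` the map `x ↦ M x + b` has small fibres (engine of helper469, `Run7/h469/Vm`, here extended to windows).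
-/

set_option autoImplicit false

namespace Pool.Agent.Results.MP_9d7cd1_nt.ProductsOfLinearForms

open MeasureTheory
open Run7.h469.Vk (Hits Lacunary Generic Avoids)
open Run7.h469.Vm (ProductIn)

/-- The integers `t` (vectors with one coordinate) with an integral point `(u, v)` of a curve `v ^ 2 = u ^ 3 + d`, `d ≠ 0`,
with `||u| - |t|| ≤ A |t| ^ θ` and `|u| ≥ 32 |d|`. -/
def Bad (A θ : ℝ) : Set (Fin 1 → ℤ) :=
  {t | ∃ d u v : ℤ, d ≠ 0 ∧ v ^ 2 = u ^ 3 + d ∧ |(|(u : ℝ)|) - (|(t 0 : ℝ)|)| ≤ A * |(t 0 : ℝ)| ^ θ ∧ 32 * |d| ≤ |u|}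

/-- **Hall's conjecture near products of linear forms.** Let `A ≥ 0`, `0 ≤ θ < 1 / 6`, `h ≥ 1`, `0 ≤ σ ≤ 1`,
`σ < h (1 / 6 - θ)`.
(1) There is `C` such that for all `D` and `X, Q ≥ 1`, for all but `C ((D + 1)^h 3^((h + 1) (D + 1))) Q^(h (D + 2)) X^(D - σ)` of
the integer vectors `x` in `[-X, X]^D` no product `t = y_1 ⋯ y_h` of the nonzero coordinates of a vector `y = M x + b`, `M`
integral of rank `h`, with entries of `M` and `b` at most `Q`, is in `Bad`: EVERY integral point `(u, v)` of every curve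
`v ^ 2 = u ^ 3 + d`, `d ≠ 0`, with `||u| - |t|| ≤ A |t| ^ θ` satisfies `|u| < 32 |d|`; (2) for lacunary `N_i` and `κ ≥ 0`,
outside a set of `α` in `ℝ^D` of dimension at most `D - σ + h (D + 2) κ` (and almost everywhere for measures of larger
dimension), for all `A'`, for all large `i` the same is true for the integer vectors `x` with `|x - N_i α| ≤ A'` and `M`, `b`
with entries at most `A' N_i^κ`; (3) in particular it is true for almost all `α`, if `h (D + 2) κ < σ`. -/
theorem result (A θ : ℝ) (hA : 0 ≤ A) (hθ : 0 ≤ θ) (h : ℕ) (hh : 1 ≤ h) (σ : ℝ) (hσ : 0 ≤ σ) (hσ1 : σ ≤ 1)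
    (hσh : σ < h * (1 / 6 - θ)) :
    (∃ C : ℝ, ∀ D X Q : ℕ, 1 ≤ X → 1 ≤ Q →
      (({x : Fin D → ℤ | (∀ j, |x j| ≤ X) ∧ x ∈ Hits (ProductIn h (Bad A θ)) D Q}.ncard : ℕ) : ℝ) ≤
        C * (((D : ℝ) + 1) ^ h * 3 ^ ((h + 1) * (D + 1))) * (Q : ℝ) ^ (h * (D + 2)) * (X : ℝ) ^ ((D : ℝ) - σ)) ∧
    (∀ D : ℕ, 1 ≤ D → ∀ N : ℕ → ℝ, Lacunary N → ∀ κ : ℝ, 0 ≤ κ →
      Generic ((D : ℝ) - σ + h * (D + 2) * κ) (fun α : Fin D → ℝ => Avoids (ProductIn h (Bad A θ)) N κ α)) ∧
    ∀ D : ℕ, 1 ≤ D → ∀ N : ℕ → ℝ, Lacunary N → ∀ κ : ℝ, 0 ≤ κ → h * (D + 2) * κ < σ →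
      ∀ᵐ α : Fin D → ℝ, Avoids (ProductIn h (Bad A θ)) N κ α := by
  refine Run7.h95.NP.near_one hh (s := 5 / 6) (by norm_num) hθ hA hσ hσ1 (by
    have e : (1 : ℝ) - 5 / 6 - θ = 1 / 6 - θ := by ring
    rw [e]
    exact hσh) (ι := ℕ) (Bad := fun t => t ∈ Pool.Agent.V60.Hall.E) (f := fun t => (t : ℝ))
    (fun ε hε => Pool.Agent.V60.Hall.count ε hε) fun t ht => ?_
  obtain ⟨d, u, v, hd, huv, hw, hu⟩ := ht
  refine ⟨u.natAbs, MultiplicativeValues.mem_E hd huv (not_lt.2 hu), ?_⟩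
  have e : ((u.natAbs : ℕ) : ℝ) = |(u : ℝ)| := by
    rw [Nat.cast_natAbs]
    push_cast
    rfl
  rw [e]
  exact hw

end Pool.Agent.Results.MP_9d7cd1_nt.ProductsOfLinearForms
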