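import Mathlib
import Pool.Agent.Run7.h28.HK.Disc

/-!
# Hall's conjecture for sparse integral points over all number fields of bounded discriminant

Let `S` be a finite set of primes, `D` and `k` natural numbers, `B` and `δ, ε > 0` real numbers. There is a
constant `C` such that the inequality `log |x| < (2 + ε) log |d| + C (1 + log M)` of Hall, and also
`log |y| < (3 + ε) log |d| + C (1 + log M)`, hold for all integral points `(x, y)`, `x, y ≠ 0`, of all curves
`y ^ 2 = x ^ 3 + d` for which there is a number field `L ⊆ ℂ` of discriminant at most `D` such that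

* `x` and `y` are sums of `k` `S`-units of `L` with coefficients of height at most `M`, without any condition
  on the terms, or
* `x` is such a sum, with a gap after its leading term, and `y` is ARBITRARY, or
* `y` is such a sum, with a gap after its leading term, and `x` is ARBITRARY.

For instance `x` can be any Fibonacci number, or a term of any recurrence sequence with a dominating root
(simple, with constant coefficient), or a sum of a Fibonacci number and boundedly many others of index at most
`(1 - δ) n`; because of the dependence on `M`, also an integer in the window of length `|x| ^ θ`,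
`θ = θ (ε) > 0`, around such a number.

The case `L = ℚ` is essentially contained in the starting theorem `SparseAbscissa`; over `ℚ` the exponent can
be improved, but not over real quadratic fields: the pairs in Danilov's examples, with
`|d| ~ c |x| ^ (1/2)`, are of this form. One constant for all fields of bounded discriminant: Hermite's
theorem.
-/

set_option autoImplicit false

open Height NumberField IsDedekindDomain

namespace Pool.Agent.Results.MP_9d7cd1_nt.SparseOverAllFields

/-- The finite places of `L` above the positive integers in `S`. -/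
def primesAbove (L : Type) [Field L] [NumberField L] (S : Finset ℕ) :
    Set (HeightOneSpectrum (𝓞 L)) :=
  {w | ∃ p ∈ S, p ≠ 0 ∧ ((p : ℕ) : 𝓞 L) ∈ w.asIdeal}

/-- The integer `z` is a sum of `k` `S`-units of `L` with coefficients in `L` of height at most `M`.
There is no condition on the sizes and heights of the terms. -/
def IsSum (L : IntermediateField ℚ ℂ) [NumberField L] (S : Finset ℕ) (k : ℕ) (M : ℝ) (z : ℤ) :
    Prop :=
  ∃ (u : Fin k → Lˣ) (a : Fin k → L), (∀ j, u j ∈ (primesAbove L S).unit L) ∧
    (∀ j, mulHeight₁ (a j) ≤ M) ∧ (z : L) = ∑ j, a j * (u j : L)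

/-- The integer `z` is the sum of an `S`-unit `v` of `L` and of `k` further `S`-units of `L` with
coefficients in `L` of height at most `M`, where `H (v) ≤ M (|z| + 1) ^ B`, and there is a gap after the
leading term: `|z - v| ≤ M |z| ^ (1 - δ)`. -/
def HasGap (L : IntermediateField ℚ ℂ) [NumberField L] (S : Finset ℕ) (k : ℕ) (B δ M : ℝ) (z : ℤ) :
    Prop :=
  ∃ (v : Lˣ) (u : Fin k → Lˣ) (a : Fin k → L), v ∈ (primesAbove L S).unit L ∧
    (∀ j, u j ∈ (primesAbove L S).unit L) ∧ (∀ j, mulHeight₁ (a j) ≤ M) ∧
    (z : L) = (v : L) + ∑ j, a j * (u j : L) ∧ mulHeight₁ (v : L) ≤ M * (|(z : ℝ)| + 1) ^ B ∧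
    ‖(((z : L) - (v : L) : L) : ℂ)‖ ≤ M * |(z : ℝ)| ^ (1 - δ)

/-- **Main theorem.** -/
theorem result (S : Finset ℕ) (D k : ℕ) (B δ ε : ℝ) (hδ : 0 < δ) (hε : 0 < ε) :
    ∃ C : ℝ, 0 < C ∧ ∀ (L : IntermediateField ℚ ℂ) [NumberField L], |discr L| ≤ D →
      ∀ (M : ℝ) (d x y : ℤ), 1 ≤ M → d ≠ 0 → x ≠ 0 → y ≠ 0 → y ^ 2 = x ^ 3 + d →
      ((IsSum L S k M x ∧ IsSum L S k M y) ∨ HasGap L S k B δ M x ∨ HasGap L S k B δ M y) →
      Real.log |(x : ℝ)| < (2 + ε) * Real.log |(d : ℝ)| + C * (1 + Real.log M) ∧
      Real.log |(y : ℝ)| < (3 + ε) * Real.log |(d : ℝ)| + C * (1 + Real.log M) := by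
  obtain ⟨C, hC, h⟩ := Pool.Agent.Run7.h28.HK.hallBound S D k B δ ε hδ hε
  have hlogC : 0 ≤ Real.log C := Real.log_nonneg hC
  refine ⟨C * (1 + Real.log C) + 1, by positivity, fun L _ hL M d x y hM hd hx hy hxy hyp => ?_⟩
  obtain ⟨h1, h2⟩ := h L hL M d x y hM hd hxy hyp
  have hlogM : 0 ≤ Real.log M := Real.log_nonneg hM
  have hd0 : 0 < |(d : ℝ)| := by
    have : (d : ℝ) ≠ 0 := by exact_mod_cast hd
    exact abs_pos.2 this
  have hCM : 0 < C * M := by nlinarith
  have key : ∀ (z : ℤ) (κ : ℝ), z ≠ 0 → |(z : ℝ)| ≤ (C * M) ^ C * |(d : ℝ)| ^ κ →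
      Real.log |(z : ℝ)| < κ * Real.log |(d : ℝ)| + (C * (1 + Real.log C) + 1) * (1 + Real.log M) := by
    intro z κ hz hb
    have hz0 : 0 < |(z : ℝ)| := by
      have : (z : ℝ) ≠ 0 := by exact_mod_cast hz
      exact abs_pos.2 this
    have h3 := Real.log_le_log hz0 hb
    rw [Real.log_mul (by positivity) (by positivity), Real.log_rpow hCM, Real.log_rpow hd0,
      Real.log_mul (by positivity) (by positivity)] at h3
    nlinarith [mul_nonneg (mul_nonneg (by linarith : (0 : ℝ) ≤ C) hlogC) hlogM,
      mul_nonneg (by linarith : (0 : ℝ) ≤ C) hlogM]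
  exact ⟨key x _ hx h1, key y _ hy h2⟩

end Pool.Agent.Results.MP_9d7cd1_nt.SparseOverAllFields
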