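import Pool.Agent.Run7.h430.TW.Kit
import Pool.Agent.V60.LD.HallCount

/-!
# Hall's conjecture for abscissas and for ordinates along almost all orbits of Euler's function

Let `φ_k` be the `k`-th iterate of Euler's function, `φ_0(m) = m`. Let `f` be a positive multiplicative function of at most
polynomial growth such that `f p ≤ M p` for the large primes `p`, with different values at different large primes; for example
the identity, Euler's function or the sum of the divisors. Let `α > 0`, `e ≥ 1`, `κ ≥ 0`.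

(1) If `5 e / 6 + κ < 1`, there is `K(m)` tending to infinity such that for almost all `m`, for ALL `k ≤ K(m)`, with
`v = f(φ_k(m))`, EVERY integral point `(x, y)` of every curve `y ^ 2 = x ^ 3 + D`, `D ≠ 0`, whose abscissa satisfies
`||x| - a α v^e| ≤ K(m) v^κ` for some `1 ≤ a ≤ K(m)` has `|x| < 32 |D|`, which is much more than Hall's bound
`|x| ≤ C |D| ^ (2 + ε)`.

(2) If `5 e / 9 + κ < 1`, the same holds for every integral point whose ORDINATE satisfies `||y| - a α v^e| ≤ K(m) v^κ`. (So `e`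
may be as large as `9 / 5`; in particular `e = 3 / 2`, where the abscissas are of the size of `v`.)

More generally `G v` takes the place of `α v^e`, where `G` is any function with steps bounded below by a positive constant and
growth at most `v^e`. The iterates of Euler's function are not multiplicative, and the values `φ_k(m)`, `m ≤ N`, form a thin
set and are taken with very large multiplicities; so this does not follow from the number `O (X ^ (5 / 6 + ε))` of the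
abscissas `|x| ≤ X` with `|x| ≥ 32 |D|` (`Pool.Agent.V60.LD.HallCount`, starting library), which is used here. The tool is
`Pool.Agent.N760.IT` (starting files), in the form of `Run7/h430/TW/Kit` (multiples and enlarged windows).
-/

set_option autoImplicit false

namespace Pool.Agent.Results.MP_9d7cd1_nt.TotientOrbits

open Finset Filter Topology

/-- A positive multiplicative function of at most polynomial growth, at most `M p` at the large primes `p` and with different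
values at different large primes. -/
structure Moderate (f : ℕ → ℕ) : Prop where
  mul : ∀ m n : ℕ, Nat.Coprime m n → f (m * n) = f m * f n
  pos : ∀ m : ℕ, 1 ≤ m → 1 ≤ f m
  growth : ∃ C D : ℕ, ∀ m : ℕ, 1 ≤ m → f m ≤ C * m ^ D
  prime : ∃ P M : ℕ, ∀ p : ℕ, P ≤ p → p.Prime → f p ≤ M * p ∧ ∀ q : ℕ, P ≤ q → q.Prime → f q = f p → q = p

/-- The steps of `G` are at least a positive constant, and `G` grows at most like `v ^ d`, `d ≥ 1`. -/
structure Expanding (G : ℕ → ℝ) (d : ℝ) : Prop where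
  one_le : 1 ≤ d
  step : ∃ a : ℝ, 0 < a ∧ ∀ v : ℕ, 1 ≤ v → a ≤ G (v + 1) - G v
  growth : ∃ C : ℝ, ∀ v : ℕ, 1 ≤ v → G v ≤ C * (v : ℝ) ^ d

open Classical in
/-- The proportion of the positive integers `m ≤ N` without the property `P` tends to `0`. -/
def AlmostAll (P : ℕ → Prop) : Prop :=
  Tendsto (fun N : ℕ => (((Icc 1 N).filter (fun m => ¬ P m)).card : ℝ) / N) atTop (𝓝 0)

/-- the value of `f` at the `k`-th iterate of Euler's function -/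
def orb (f : ℕ → ℕ) (k m : ℕ) : ℕ := f (Nat.totient^[k] m)

theorem lm_of {f : ℕ → ℕ} (hf : Moderate f) : Pool.Agent.N733.TG.LM f := ⟨hf.mul, hf.pos, hf.growth, hf.prime⟩

theorem of_lm {f : ℕ → ℕ} (hf : Pool.Agent.N733.TG.LM f) : Moderate f := ⟨hf.mul, hf.pos, hf.growth, hf.prime⟩

theorem ex_of {G : ℕ → ℝ} {d : ℝ} (h : Expanding G d) : Pool.Agent.N733.TG.Expanding G d := ⟨h.one_le, h.step, h.growth⟩

lemma near {d x y : ℤ} (hd : d ≠ 0) (h : y ^ 2 = x ^ 3 + d) (hx : ¬ |x| < 32 * |d|) :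
    ((y.natAbs : ℕ) : ℤ) ^ 2 ≠ ((x.natAbs : ℕ) : ℤ) ^ 3 ∧
      32 * |((y.natAbs : ℕ) : ℤ) ^ 2 - ((x.natAbs : ℕ) : ℤ) ^ 3| ≤ ((x.natAbs : ℕ) : ℤ) := by
  have hd1 : 1 ≤ |d| := Int.one_le_abs hd
  have hx0 : 0 < x := by
    by_contra hcon
    push Not at hcon
    obtain ⟨z, hz⟩ : ∃ z : ℤ, z = -x := ⟨_, rfl⟩
    have hz0 : 0 ≤ z := by omega
    have e : x = -z := by omega
    have e2 : d = y ^ 2 + z ^ 3 := by
      rw [e] at h
      have : (-z) ^ 3 = -(z ^ 3) := by ring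
      rw [this] at h
      linarith
    have h3 : 0 ≤ z ^ 3 := by positivity
    have h4 : z ≤ z ^ 3 := by
      rcases hz0.eq_or_lt with h0 | h0
      · rw [← h0]; norm_num
      · have h1 : 1 ≤ z := h0
        exact le_self_pow₀ h1 (by norm_num)
    have h5 : 0 ≤ y ^ 2 := sq_nonneg y
    have h6 : |d| = d := abs_of_nonneg (by linarith)
    have h7 : |x| = z := by rw [e, abs_neg, abs_of_nonneg hz0]
    apply hx
    rw [h6, h7]
    linarith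
  have e1 : ((y.natAbs : ℕ) : ℤ) ^ 2 = y ^ 2 := by rw [Int.natCast_natAbs, sq_abs]
  have e2 : ((x.natAbs : ℕ) : ℤ) = x := by rw [Int.natCast_natAbs, abs_of_pos hx0]
  rw [e1, e2]
  refine ⟨fun h1 => hd (by linarith), ?_⟩
  have h1 : y ^ 2 - x ^ 3 = d := by linarith
  rw [h1]
  rw [abs_of_pos hx0] at hx
  push Not at hx
  exact hx

/-- the ordinates of the exceptional points -/
def E₂ : Set ℕ := {y | ∃ x : ℕ, (y : ℤ) ^ 2 ≠ (x : ℤ) ^ 3 ∧ 32 * |(y : ℤ) ^ 2 - (x : ℤ) ^ 3| ≤ x}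

lemma size {x y : ℕ} (h0 : (y : ℤ) ^ 2 ≠ (x : ℤ) ^ 3) (h : 32 * |(y : ℤ) ^ 2 - (x : ℤ) ^ 3| ≤ x) :
    1 ≤ x ∧ x ≤ 2 * y ∧ x ^ 3 ≤ 2 * y ^ 2 := by
  have hx : 1 ≤ x := by
    by_contra hcon
    have h1 : x = 0 := by omega
    rw [h1] at h h0
    have h2 := abs_nonneg ((y : ℤ) ^ 2 - ((0 : ℕ) : ℤ) ^ 3)
    have h3 : |(y : ℤ) ^ 2 - ((0 : ℕ) : ℤ) ^ 3| = 0 := by
      push_cast at h h2 ⊢
      linarith
    rw [abs_eq_zero] at h3
    exact h0 (by linarith)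
  have h1 : ((x : ℤ)) ^ 3 - (y : ℤ) ^ 2 ≤ |(y : ℤ) ^ 2 - (x : ℤ) ^ 3| := by
    rw [abs_sub_comm]
    exact le_abs_self _
  have hx1 : (1 : ℤ) ≤ x := by exact_mod_cast hx
  have h2 : (x : ℤ) ≤ (x : ℤ) ^ 3 := le_self_pow₀ hx1 (by norm_num)
  have h3 : (x : ℤ) ^ 3 ≤ 2 * (y : ℤ) ^ 2 := by linarith
  refine ⟨hx, ?_, by exact_mod_cast h3⟩
  have h4 : (x : ℤ) ^ 2 ≤ (x : ℤ) ^ 3 := pow_le_pow_right₀ hx1 (by norm_num)
  have h5 : (x : ℤ) ^ 2 ≤ (2 * (y : ℤ)) ^ 2 := by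
    have : 0 ≤ (y : ℤ) ^ 2 := sq_nonneg _
    nlinarith
  have h6 : (x : ℤ) ≤ 2 * (y : ℤ) := le_of_pow_le_pow_left₀ (by norm_num) (by positivity) h5
  exact_mod_cast h6

lemma inj {x y y' : ℕ} (h0 : (y : ℤ) ^ 2 ≠ (x : ℤ) ^ 3) (h : 32 * |(y : ℤ) ^ 2 - (x : ℤ) ^ 3| ≤ x)
    (h0' : (y' : ℤ) ^ 2 ≠ (x : ℤ) ^ 3) (h' : 32 * |(y' : ℤ) ^ 2 - (x : ℤ) ^ 3| ≤ x) : y = y' := by
  obtain ⟨hx, hy, -⟩ := size h0 h
  obtain ⟨-, hy', -⟩ := size h0' h'
  by_contra hne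
  have h1 : |(y : ℤ) ^ 2 - (y' : ℤ) ^ 2| ≤ |(y : ℤ) ^ 2 - (x : ℤ) ^ 3| + |(y' : ℤ) ^ 2 - (x : ℤ) ^ 3| := by
    have := abs_sub_le ((y : ℤ) ^ 2) ((x : ℤ) ^ 3) ((y' : ℤ) ^ 2)
    rw [abs_sub_comm ((x : ℤ) ^ 3) ((y' : ℤ) ^ 2)] at this
    exact this
  have h2 : (y : ℤ) + y' ≤ |(y : ℤ) ^ 2 - (y' : ℤ) ^ 2| := by
    have e : (y : ℤ) ^ 2 - (y' : ℤ) ^ 2 = ((y : ℤ) - y') * ((y : ℤ) + y') := by ring
    rw [e, abs_mul]
    have h3 : 1 ≤ |(y : ℤ) - y'| := Int.one_le_abs (fun h => hne (by omega))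
    have h4 : |(y : ℤ) + y'| = (y : ℤ) + y' := abs_of_nonneg (by positivity)
    rw [h4]
    have h5 : (0 : ℤ) ≤ (y : ℤ) + y' := by positivity
    nlinarith
  have h6 : (x : ℤ) ≤ 2 * y := by exact_mod_cast hy
  have h7 : (1 : ℤ) ≤ x := by exact_mod_cast hx
  omega

theorem count₂ (ε : ℝ) (hε : 0 < ε) : ∃ C : ℝ, ∀ X : ℝ, 1 ≤ X →
    {t : ℕ | t ∈ E₂ ∧ (t : ℝ) ≤ X}.Finite ∧ ({t : ℕ | t ∈ E₂ ∧ (t : ℝ) ≤ X}.ncard : ℝ) ≤ C * X ^ (5 / 9 + ε) := by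
  classical
  obtain ⟨C, hC⟩ := Pool.Agent.V60.Hall.count ε hε
  refine ⟨|C| * 2 ^ (5 / 6 + ε), fun X hX => ?_⟩
  have hfin : {t : ℕ | t ∈ E₂ ∧ (t : ℝ) ≤ X}.Finite := (Set.finite_Iic ⌊X⌋₊).subset (fun t ht => Nat.le_floor ht.2)
  refine ⟨hfin, ?_⟩
  obtain ⟨Z, hZ⟩ : ∃ Z : ℝ, Z = 2 * X ^ ((2 : ℝ) / 3) := ⟨_, rfl⟩
  have hX23 : 1 ≤ X ^ ((2 : ℝ) / 3) := Real.one_le_rpow hX (by norm_num)
  have hZ1 : 1 ≤ Z := by rw [hZ]; linarith
  obtain ⟨g1, g2⟩ := hC Z hZ1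
  choose! u hu using (fun (t : ℕ) (ht : t ∈ E₂) => ht)
  have h1 : {t : ℕ | t ∈ E₂ ∧ (t : ℝ) ≤ X}.ncard ≤ {t : ℕ | t ∈ Pool.Agent.V60.Hall.E ∧ (t : ℝ) ≤ Z}.ncard := by
    refine Set.ncard_le_ncard_of_injOn u ?_ ?_ g1
    · rintro t ⟨ht, htX⟩
      obtain ⟨a1, a2⟩ := hu t ht
      refine ⟨⟨t, a1, a2⟩, ?_⟩
      obtain ⟨-, -, b3⟩ := size a1 a2
      have b4 : ((u t : ℕ) : ℝ) ^ 3 ≤ 2 * (t : ℝ) ^ 2 := by exact_mod_cast b3
      have b5 : ((u t : ℕ) : ℝ) ^ 3 ≤ Z ^ 3 := by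
        calc ((u t : ℕ) : ℝ) ^ 3 ≤ 2 * (t : ℝ) ^ 2 := b4
          _ ≤ 8 * X ^ 2 := by
              have : (t : ℝ) ^ 2 ≤ X ^ 2 := pow_le_pow_left₀ (Nat.cast_nonneg _) htX 2
              have : 0 ≤ X ^ 2 := by positivity
              linarith
          _ = Z ^ 3 := by
              rw [hZ, mul_pow, ← Real.rpow_natCast (X ^ ((2 : ℝ) / 3)), ← Real.rpow_mul (by linarith)]
              norm_num
      exact le_of_pow_le_pow_left₀ (by norm_num) (by linarith) b5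
    · rintro t ⟨ht, -⟩ t' ⟨ht', -⟩ he
      obtain ⟨a1, a2⟩ := hu t ht
      obtain ⟨a1', a2'⟩ := hu t' ht'
      rw [← he] at a1' a2'
      exact inj a1 a2 a1' a2'
  calc ({t : ℕ | t ∈ E₂ ∧ (t : ℝ) ≤ X}.ncard : ℝ) ≤ ({t : ℕ | t ∈ Pool.Agent.V60.Hall.E ∧ (t : ℝ) ≤ Z}.ncard : ℝ) := by
        exact_mod_cast h1
    _ ≤ C * Z ^ (5 / 6 + ε) := g2
    _ ≤ |C| * Z ^ (5 / 6 + ε) := mul_le_mul_of_nonneg_right (le_abs_self C) (by positivity)
    _ = |C| * 2 ^ (5 / 6 + ε) * X ^ (2 / 3 * (5 / 6 + ε)) := by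
        rw [hZ, Real.mul_rpow (by norm_num) (by positivity), ← Real.rpow_mul (by linarith)]
        ring
    _ ≤ |C| * 2 ^ (5 / 6 + ε) * X ^ (5 / 9 + ε) := by
        apply mul_le_mul_of_nonneg_left _ (by positivity)
        apply Real.rpow_le_rpow_of_exponent_le hX
        linarith

/-- **Hall's conjecture for abscissas and ordinates along orbits of Euler's function.** -/
theorem result :
    (∀ f : ℕ → ℕ, Moderate f → ∀ (G : ℕ → ℝ) (e : ℝ), Expanding G e → ∀ κ : ℝ, 0 ≤ κ →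
      -- (1) abscissas
      (e * (5 / 6) + κ < 1 → ∃ K : ℕ → ℕ, Tendsto K atTop atTop ∧
        AlmostAll (fun m => ∀ k ≤ K m, ∀ a : ℕ, 1 ≤ a → a ≤ K m → ∀ D x y : ℤ, D ≠ 0 → y ^ 2 = x ^ 3 + D →
          |(|x| : ℝ) - a * G (orb f k m)| ≤ K m * (orb f k m : ℝ) ^ κ → |x| < 32 * |D|)) ∧
      -- (2) ordinates
      (e * (5 / 9) + κ < 1 → ∃ K : ℕ → ℕ, Tendsto K atTop atTop ∧
        AlmostAll (fun m => ∀ k ≤ K m, ∀ a : ℕ, 1 ≤ a → a ≤ K m → ∀ D x y : ℤ, D ≠ 0 → y ^ 2 = x ^ 3 + D →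
          |(|y| : ℝ) - a * G (orb f k m)| ≤ K m * (orb f k m : ℝ) ^ κ → |x| < 32 * |D|))) ∧
    (Moderate (fun m => m) ∧ Moderate Nat.totient ∧ Moderate (fun m => ∑ d ∈ m.divisors, d)) ∧
    ∀ α e : ℝ, 0 < α → 1 ≤ e → Expanding (fun v => α * (v : ℝ) ^ e) e := by
  refine ⟨fun f hf G e hG κ hκ => ⟨fun h1 => ?_, fun h1 => ?_⟩,
    ⟨of_lm Pool.Agent.N760.IT.lm_id, of_lm Pool.Agent.N733.TG.lm_totient, of_lm Pool.Agent.N733.TG.lm_sigma⟩,
    fun α d hα hd => ?_⟩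
  · obtain ⟨K, hK, h2⟩ := Run7.h430.TW.kit Pool.Agent.V60.Hall.E (fun t : ℕ => (t : ℝ)) (lm_of hf) (ex_of hG) (s := 5 / 6)
      (κ := κ) (by norm_num) hκ h1 (fun ε hε => Pool.Agent.V60.Hall.count ε hε)
    refine ⟨K, hK, Pool.Agent.N826.IT.Orb.almostAll_mono h2 (fun m hm k hk a ha1 ha D x y hD hxy hw => ?_)⟩
    by_contra hcon
    have h3 := near hD hxy hcon
    refine absurd hw (not_le.2 ?_)
    have h4 := hm k hk a ha1 ha x.natAbs ⟨y.natAbs, h3⟩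
    have e : ((x.natAbs : ℕ) : ℝ) = |(x : ℝ)| := by
      rw [Nat.cast_natAbs]
      push_cast
      rfl
    rw [e] at h4
    exact h4
  · obtain ⟨K, hK, h2⟩ := Run7.h430.TW.kit E₂ (fun t : ℕ => (t : ℝ)) (lm_of hf) (ex_of hG) (s := 5 / 9)
      (κ := κ) (by norm_num) hκ h1 (fun ε hε => count₂ ε hε)
    refine ⟨K, hK, Pool.Agent.N826.IT.Orb.almostAll_mono h2 (fun m hm k hk a ha1 ha D x y hD hxy hw => ?_)⟩
    by_contra hcon
    have h3 := near hD hxy hcon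
    refine absurd hw (not_le.2 ?_)
    have h4 := hm k hk a ha1 ha y.natAbs ⟨x.natAbs, h3⟩
    have e : ((y.natAbs : ℕ) : ℝ) = |(y : ℝ)| := by
      rw [Nat.cast_natAbs]
      push_cast
      rfl
    rw [e] at h4
    exact h4
  · obtain ⟨h1, h2, h3⟩ := Pool.Agent.N733.TG.expanding_pow hα hd
    exact ⟨h1, h2, h3⟩

end Pool.Agent.Results.MP_9d7cd1_nt.TotientOrbits
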